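import Pool.Agent.H11.SK.Alg

set_option autoImplicit false

/-! The action of the group ring on functions; Euler factors. -/

namespace Pool.Agent.H11.SK

section act

variable {Q : Type} [CommGroup Q]

/-- translations of functions -/
noncomputable def T : Q →* Module.End ℂ (Q → ℂ) where
  toFun x := { toFun := fun φ g => φ (x⁻¹ * g), map_add' := fun _ _ => rfl, map_smul' := fun _ _ => rfl }
  map_one' := by
    ext φ g
    simp
  map_mul' x y := by
    ext φ g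
    simp [mul_assoc, mul_comm]

theorem T_apply (x : Q) (φ : Q → ℂ) (g : Q) : T x φ g = φ (x⁻¹ * g) := rfl

/-- the action of the group ring -/
noncomputable def Phi : MonoidAlgebra ℤ Q →ₐ[ℤ] Module.End ℂ (Q → ℂ) :=
  MonoidAlgebra.lift ℤ (Module.End ℂ (Q → ℂ)) Q T

/-- the element `1 - x` -/
noncomputable def D (x : Q) : MonoidAlgebra ℤ Q := 1 - MonoidAlgebra.of ℤ Q x

theorem Phi_D (x : Q) (φ : Q → ℂ) (g : Q) : Phi (D x) φ g = φ g - φ (x⁻¹ * g) := by
  unfold D Phi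
  rw [map_sub, map_one, MonoidAlgebra.lift_of]
  rfl

theorem Phi_mul (r s : MonoidAlgebra ℤ Q) (φ : Q → ℂ) : Phi (r * s) φ = Phi r (Phi s φ) := by
  rw [map_mul]; rfl

theorem Phi_mem (A : AddSubgroup (Q → ℂ)) (hA : ∀ φ ∈ A, ∀ x : Q, (fun g => φ (x * g)) ∈ A)
    (r : MonoidAlgebra ℤ Q) {φ : Q → ℂ} (hφ : φ ∈ A) : Phi r φ ∈ A := by
  unfold Phi
  rw [MonoidAlgebra.lift_apply, Finsupp.sum, LinearMap.sum_apply]
  refine AddSubgroup.sum_mem _ fun x _ => ?_
  have h1 : (r.coeff x • T x) φ = r.coeff x • (T x φ) := rfl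
  rw [h1]
  refine AddSubgroup.zsmul_mem _ ?_ _
  exact hA φ hφ x⁻¹

/-- **products of augmentation elements** -/
theorem dvd_prod [Finite Q] [IsCyclic Q] {l : ℕ} (hl : l.Prime) (m : ℕ) {ι : Type} (x : ι → Q)
    (W : Finset ι) (hW : ∀ i ∈ W, ∃ k : ℕ, x i ^ l ^ k = 1)
    (hc : m * (l ^ (Nat.card Q).factorization l - l ^ ((Nat.card Q).factorization l - 1)) +
      l ^ ((Nat.card Q).factorization l - 1) ≤ W.card) :
    ((l ^ m : ℕ) : MonoidAlgebra ℤ Q) ∣ ∏ i ∈ W, D (x i) := by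
  set n := (Nat.card Q).factorization l with hn
  obtain ⟨g₀, hg₀⟩ := IsCyclic.exists_monoid_generator (α := Q)
  have hcard : Nat.card Q ≠ 0 := Nat.card_pos.ne'
  set N := ordCompl[l] (Nat.card Q) with hN
  have hlN : l ^ n * N = Nat.card Q := Nat.ordProj_mul_ordCompl_eq_self (Nat.card Q) l
  have hcop : Nat.Coprime N l := (Nat.coprime_ordCompl hl hcard).symm
  set y := g₀ ^ N with hy
  have hord : orderOf g₀ = Nat.card Q := by
    apply orderOf_eq_card_of_forall_mem_zpowers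
    intro x
    obtain ⟨k, hk⟩ := hg₀ x
    exact ⟨k, by simpa using hk⟩
  have hy1 : y ^ l ^ n = 1 := by
    rw [hy, ← pow_mul, mul_comm, hlN, ← hord, pow_orderOf_eq_one]
  have hx : ∀ i ∈ W, ∃ j : ℕ, x i = y ^ j := by
    intro i hi
    obtain ⟨k, hk⟩ := hW i hi
    obtain ⟨j, hj⟩ := hg₀ (x i)
    have hj : g₀ ^ j = x i := hj
    rw [← hj, ← pow_mul] at hk
    have h1 : orderOf g₀ ∣ j * l ^ k := orderOf_dvd_of_pow_eq_one hk
    rw [hord, ← hlN] at h1
    have h2 : N ∣ j * l ^ k := (dvd_mul_left N _).trans h1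
    obtain ⟨t, ht⟩ := (Nat.Coprime.dvd_of_dvd_mul_right (hcop.pow_right k) h2)
    exact ⟨t, by rw [← hj, ht, hy, pow_mul]⟩
  set t : MonoidAlgebra ℤ Q := MonoidAlgebra.of ℤ Q y with ht
  have ht1 : t ^ l ^ n = 1 := by rw [ht, ← map_pow, hy1, map_one]
  have h1 : (1 - t) ^ W.card ∣ ∏ i ∈ W, D (x i) := by
    rw [← Finset.prod_const]
    refine Finset.prod_dvd_prod_of_dvd _ _ fun i hi => ?_
    obtain ⟨j, hj⟩ := hx i hi
    unfold D
    rw [hj, map_pow, ← ht]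
    simpa using sub_dvd_pow_sub_pow (1 : MonoidAlgebra ℤ Q) t j
  have h2 := aug_dvd hl n ht1 m
  push_cast
  exact (h2.trans (pow_dvd_pow _ hc)).trans h1

end act

section euler

variable {Q : Type} [CommGroup Q] {ι : Type} [DecidableEq ι]

theorem deriv_euler (N : ℕ) (hN : N ≠ 0) {A B : ℂ → ℂ} (hA : DifferentiableAt ℂ A 0)
    (hB : DifferentiableAt ℂ B 0) :
    deriv (fun s => A s - (N : ℂ) ^ (-s) * B s) 0 =
      deriv A 0 - deriv B 0 + Complex.log N * B 0 := by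
  have hne : (N : ℂ) ≠ 0 := by exact_mod_cast hN
  have h5 : HasDerivAt (fun s : ℂ => (N : ℂ) ^ (-s)) (-(Complex.log N)) 0 := by
    have h := ((hasDerivAt_id (0 : ℂ)).neg).const_cpow (c := (N : ℂ)) (Or.inl hne)
    simpa using h
  have h6 := (hA.hasDerivAt.sub (h5.mul hB.hasDerivAt)).deriv
  have e : (fun s => A s - (N : ℂ) ^ (-s) * B s) = A - (fun s : ℂ => (N : ℂ) ^ (-s)) * B := rfl
  rw [e, h6]
  simp
  ring

theorem euler_family (x : ι → Q) (N : ι → ℕ) (hN : ∀ i, N i ≠ 0)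
    (P : Finset ι → (Q → ℂ → ℂ) → Prop) (V : Finset ι)
    (hstep : ∀ (U : Finset ι) (Z : Q → ℂ → ℂ) (i : ι), U ⊆ V → i ∈ V → i ∉ U → P U Z →
      P (insert i U) (fun g s => Z g s - (N i : ℂ) ^ (-s) * Z ((x i)⁻¹ * g) s))
    (hdiff : ∀ U Z, P U Z → ∀ g, DifferentiableAt ℂ (Z g) 0)
    (Z₀ : Q → ℂ → ℂ) (h₀ : P ∅ Z₀) (U : Finset ι) : U ⊆ V →
    ∃ Z, P U Z ∧ (fun g => Z g 0) = Phi (∏ i ∈ U, D (x i)) (fun g => Z₀ g 0) ∧
      (fun g => deriv (Z g) 0) = Phi (∏ i ∈ U, D (x i)) (fun g => deriv (Z₀ g) 0) +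
        ∑ i ∈ U, Phi (∏ j ∈ U.erase i, D (x j)) (Complex.log (N i) • T (x i) (fun g => Z₀ g 0)) := by
  induction U using Finset.induction_on with
  | empty =>
    intro _
    refine ⟨Z₀, h₀, ?_, ?_⟩
    · rw [Finset.prod_empty, map_one]; rfl
    · rw [Finset.prod_empty, map_one, Finset.sum_empty, add_zero]; rfl
  | insert i U hi ih =>
    intro hU
    obtain ⟨Z, hZ, h1, h2⟩ := ih ((Finset.subset_insert i U).trans hU)
    refine ⟨_, hstep U Z i ((Finset.subset_insert i U).trans hU) (hU (Finset.mem_insert_self i U)) hi hZ,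
      ?_, ?_⟩
    · rw [Finset.prod_insert hi, Phi_mul, ← h1]
      funext g
      rw [Phi_D]
      simp
    · have e1 : (fun g => deriv (fun s => Z g s - (N i : ℂ) ^ (-s) * Z ((x i)⁻¹ * g) s) 0) =
          Phi (D (x i)) (fun g => deriv (Z g) 0) +
            Complex.log (N i) • T (x i) (fun g => Z g 0) := by
        funext g
        rw [deriv_euler (N i) (hN i) (hdiff U Z hZ g) (hdiff U Z hZ _)]
        rw [Pi.add_apply, Phi_D]
        rfl
      rw [e1, h2, h1, Finset.prod_insert hi, Finset.sum_insert hi, Finset.erase_insert hi, map_add,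
        map_sum, Phi_mul]
      have e2 : Complex.log (N i) • T (x i) (Phi (∏ i ∈ U, D (x i)) fun g => Z₀ g 0) =
          Phi (∏ i ∈ U, D (x i)) (Complex.log (N i) • T (x i) (fun g => Z₀ g 0)) := by
        rw [map_smul]
        congr 1
        have e3 : ∀ φ, T (x i) φ = Phi (MonoidAlgebra.of ℤ Q (x i)) φ := by
          intro φ
          unfold Phi
          rw [MonoidAlgebra.lift_of]
        rw [e3, e3, ← Phi_mul, ← Phi_mul, mul_comm]
      rw [e2]
      have e4 : ∀ j ∈ U, Phi (D (x i)) (Phi (∏ k ∈ U.erase j, D (x k))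
          (Complex.log (N j) • T (x j) (fun g => Z₀ g 0))) =
          Phi (∏ k ∈ (insert i U).erase j, D (x k)) (Complex.log (N j) • T (x j) (fun g => Z₀ g 0)) := by
        intro j hj
        have hij : i ≠ j := fun h => hi (h ▸ hj)
        rw [← Phi_mul, Finset.erase_insert_of_ne hij, Finset.prod_insert]
        intro h
        exact hi (Finset.mem_of_mem_erase h)
      rw [Finset.sum_congr rfl e4]
      abel

/-- **the derivatives for a larger set of primes** -/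
theorem euler_good [Finite Q] [IsCyclic Q] (x : ι → Q) (N : ι → ℕ) (hN : ∀ i, N i ≠ 0)
    (P : Finset ι → (Q → ℂ → ℂ) → Prop) (V : Finset ι)
    (hstep : ∀ (U : Finset ι) (Z : Q → ℂ → ℂ) (i : ι), U ⊆ V → i ∈ V → i ∉ U → P U Z →
      P (insert i U) (fun g s => Z g s - (N i : ℂ) ^ (-s) * Z ((x i)⁻¹ * g) s))
    (hdiff : ∀ U Z, P U Z → ∀ g, DifferentiableAt ℂ (Z g) 0)
    (Z₀ : Q → ℂ → ℂ) (h₀ : P ∅ Z₀) (A : AddSubgroup (Q → ℂ))
    (hA : ∀ φ ∈ A, ∀ x : Q, (fun g => φ (x * g)) ∈ A)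
    (hf0 : V = ∅ → (fun g => deriv (Z₀ g) 0) ∈ A)
    (hf : ∀ i ∈ V, (fun g => deriv (Z₀ g) 0 - deriv (Z₀ ((x i)⁻¹ * g)) 0) ∈ A)
    (hi : ∀ i ∈ V, (fun g => deriv (fun s => Z₀ g s - (N i : ℂ) ^ (-s) * Z₀ ((x i)⁻¹ * g) s) 0) ∈ A) :
    ∃ Z, P V Z ∧ (fun g => deriv (Z g) 0) ∈ A ∧
      ∀ (l m : ℕ), l.Prime → ∀ W ⊆ V, (∀ i ∈ W, ∃ k : ℕ, x i ^ l ^ k = 1) →
        m * (l ^ (Nat.card Q).factorization l - l ^ ((Nat.card Q).factorization l - 1)) +
          l ^ ((Nat.card Q).factorization l - 1) + 1 ≤ W.card →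
        ∃ ψ ∈ A, (fun g => deriv (Z g) 0) = (l ^ m) • ψ := by
  obtain ⟨Z, hZ, -, h2⟩ := euler_family x N hN P V hstep hdiff Z₀ h₀ V (Finset.Subset.refl V)
  set f : Q → ℂ := fun g => deriv (Z₀ g) 0 with hfdef
  set u : ι → Q → ℂ := fun i => Complex.log (N i) • T (x i) (fun g => Z₀ g 0) with hu
  have hfD : ∀ i ∈ V, Phi (D (x i)) f ∈ A := by
    intro i hiV
    have e : Phi (D (x i)) f = fun g => deriv (Z₀ g) 0 - deriv (Z₀ ((x i)⁻¹ * g)) 0 := by
      funext g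
      rw [Phi_D]
    rw [e]
    exact hf i hiV
  have hu2 : ∀ i ∈ V, u i ∈ A := by
    intro i hiV
    have e1 : (fun g => deriv (fun s => Z₀ g s - (N i : ℂ) ^ (-s) * Z₀ ((x i)⁻¹ * g) s) 0) =
          Phi (D (x i)) f + u i := by
      funext g
      rw [deriv_euler (N i) (hN i) (hdiff ∅ Z₀ h₀ g) (hdiff ∅ Z₀ h₀ _)]
      rw [Pi.add_apply, Phi_D]
      rfl
    have h3 := hi i hiV
    rw [e1] at h3
    have h4 := A.sub_mem h3 (hfD i hiV)
    rwa [add_sub_cancel_left] at h4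
  refine ⟨Z, hZ, ?_, ?_⟩
  · rw [h2]
    refine A.add_mem ?_ (A.sum_mem fun i hi => Phi_mem A hA _ (hu2 i hi))
    rcases V.eq_empty_or_nonempty with hV | ⟨i, hiV⟩
    · rw [hV, Finset.prod_empty, map_one]
      exact hf0 hV
    · rw [← Finset.prod_erase_mul V _ hiV, Phi_mul]
      exact Phi_mem A hA _ (hfD i hiV)
  · intro l m hl W hW hWl hcard
    have hdvd : ∀ i ∈ V, ∃ r : MonoidAlgebra ℤ Q, ∏ j ∈ V.erase i, D (x j) = ((l ^ m : ℕ) : MonoidAlgebra ℤ Q) * r := by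
      intro i _
      have h3 : ((l ^ m : ℕ) : MonoidAlgebra ℤ Q) ∣ ∏ j ∈ W.erase i, D (x j) := by
        refine dvd_prod hl m x (W.erase i) (fun j hj => hWl j (Finset.mem_of_mem_erase hj)) ?_
        have := Finset.pred_card_le_card_erase (s := W) (a := i)
        omega
      have h4 : ∏ j ∈ W.erase i, D (x j) ∣ ∏ j ∈ V.erase i, D (x j) :=
        Finset.prod_dvd_prod_of_subset _ _ _ (Finset.erase_subset_erase i hW)
      exact h3.trans h4
    choose! r hr using hdvd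
    obtain ⟨i₀, hi₀⟩ : W.Nonempty := Finset.card_pos.1 (by omega)
    have hi₀V : i₀ ∈ V := hW hi₀
    have hsm : ∀ (r : MonoidAlgebra ℤ Q) (φ : Q → ℂ),
        Phi (((l ^ m : ℕ) : MonoidAlgebra ℤ Q) * r) φ = (l ^ m) • Phi r φ := by
      intro r φ
      rw [Phi_mul, map_natCast]
      rfl
    refine ⟨Phi (r i₀) (Phi (D (x i₀)) f) + ∑ i ∈ V, Phi (r i) (u i),
      A.add_mem (Phi_mem A hA _ (hfD i₀ hi₀V))
      (A.sum_mem fun i hi => Phi_mem A hA _ (hu2 i hi)), ?_⟩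
    rw [h2, smul_add, Finset.smul_sum, ← Finset.prod_erase_mul V _ hi₀V, Phi_mul, hr i₀ hi₀V, hsm]
    congr 1
    refine Finset.sum_congr rfl fun i hi => ?_
    rw [hr i hi, hsm]

end euler

end Pool.Agent.H11.SK
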