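import Mathlib

set_option autoImplicit false

/-! Divisibility of products of augmentation elements in the group ring of a cyclic group. -/

namespace Pool.Agent.H11.SK

open Polynomial

/-- `(1 - X)^(l-1)` is `1 + X + ... + X^(l-1)` modulo `l`. -/
theorem one_sub_pow_pred (l : ℕ) (hl : l.Prime) :
    ∃ w : ℤ[X], (1 - X) ^ (l - 1) = ∑ i ∈ Finset.range l, (X : ℤ[X]) ^ i + C (l : ℤ) * w := by
  obtain ⟨r, hr⟩ := exists_add_pow_prime_eq hl (1 : ℤ[X]) (-X)
  have hneg : ∃ u : ℤ[X], (-X : ℤ[X]) ^ l = -(X ^ l) + C (l : ℤ) * u := by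
    rcases hl.eq_two_or_odd' with h | h
    · refine ⟨X ^ l, ?_⟩
      subst h
      rw [neg_sq]
      simp
      ring
    · exact ⟨0, by rw [h.neg_pow]; simp⟩
  obtain ⟨u, hu⟩ := hneg
  have h1 : (1 - X : ℤ[X]) ^ l = 1 - X ^ l + C (l : ℤ) * (u + 1 * (-X) * r) := by
    rw [sub_eq_add_neg, hr, hu]
    simp only [one_pow]
    have : (C (l : ℤ) : ℤ[X]) = (l : ℤ[X]) := by simp
    rw [this]
    ring
  have h2 : (C (l : ℤ) : ℤ[X]) ∣ (1 - X) * ((1 - X) ^ (l - 1) - ∑ i ∈ Finset.range l, (X : ℤ[X]) ^ i) := by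
    refine ⟨u + 1 * (-X) * r, ?_⟩
    have h3 : (1 - X : ℤ[X]) * (1 - X) ^ (l - 1) = (1 - X) ^ l := by
      rw [← pow_succ', Nat.sub_add_cancel hl.one_le]
    rw [mul_sub, h3, h1, mul_neg_geom_sum]
    ring
  have hp : Prime (C (l : ℤ) : ℤ[X]) := Polynomial.prime_C_iff.2 (Nat.prime_iff_prime_int.1 hl)
  rcases hp.dvd_or_dvd h2 with h3 | h3
  · exfalso
    rw [Polynomial.C_dvd_iff_dvd_coeff] at h3
    have h4 := h3 0
    simp at h4
    have : (l : ℤ) ∣ 1 := h4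
    have h5 : l ∣ 1 := by exact_mod_cast this
    exact hl.one_lt.ne' (Nat.dvd_one.1 h5)
  · obtain ⟨w, hw⟩ := h3
    exact ⟨w, by rw [← hw]; ring⟩

variable {R : Type*} [CommRing R]

/-- for `z^l = 1` the element `(1-z)^l` is divisible by `l (1-z)` -/
theorem dvd_one_sub_pow {l : ℕ} (hl : l.Prime) {z : R} (hz : z ^ l = 1) :
    (l : R) * (1 - z) ∣ (1 - z) ^ l := by
  obtain ⟨w, hw⟩ := one_sub_pow_pred l hl
  have h1 := congrArg (Polynomial.aeval z) hw
  simp only [map_pow, map_sub, map_one, map_add, map_mul, map_sum, Polynomial.aeval_X,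
    Polynomial.aeval_C] at h1
  refine ⟨Polynomial.aeval z w, ?_⟩
  have h3 : (1 - z) ^ l = (1 - z) * (1 - z) ^ (l - 1) := by
    rw [← pow_succ', Nat.sub_add_cancel hl.one_le]
  rw [h3, h1, mul_add, mul_neg_geom_sum, hz]
  simp
  ring

/-- `(1-y)^(l^j)` is `1 - y^(l^j)` modulo `l` -/
theorem frob_pow {l : ℕ} (hl : l.Prime) (y : R) (j : ℕ) :
    ∃ h : R, (1 - y) ^ l ^ j = (1 - y ^ l ^ j) + l * h := by
  induction j with
  | zero => exact ⟨0, by simp⟩
  | succ j ih =>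
    obtain ⟨h, hh⟩ := ih
    have hneg : ∃ u : R, (-(y ^ l ^ j)) ^ l = -((y ^ l ^ j) ^ l) + l * u := by
      rcases hl.eq_two_or_odd' with h | h
      · refine ⟨(y ^ l ^ j) ^ l, ?_⟩
        subst h
        rw [neg_sq]
        push_cast
        ring
      · exact ⟨0, by rw [h.neg_pow]; simp⟩
    obtain ⟨u, hu⟩ := hneg
    obtain ⟨r1, hr1⟩ := exists_add_pow_prime_eq hl (1 - y ^ l ^ j) ((l : R) * h)
    obtain ⟨r2, hr2⟩ := exists_add_pow_prime_eq hl (1 : R) (-(y ^ l ^ j))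
    have h5 : ((l : R) * h) ^ l = l * ((l : R) ^ (l - 1) * h ^ l) := by
      rw [mul_pow, ← mul_assoc, ← pow_succ', Nat.sub_add_cancel hl.one_le]
    refine ⟨u + 1 * (-(y ^ l ^ j)) * r2 + (l : R) ^ (l - 1) * h ^ l + (1 - y ^ l ^ j) * (l * h) * r1, ?_⟩
    rw [pow_succ l j, pow_mul, hh, hr1, h5, pow_mul y]
    have h6 : (1 - y ^ l ^ j) ^ l = 1 - (y ^ l ^ j) ^ l + l * (u + 1 * (-(y ^ l ^ j)) * r2) := by
      rw [sub_eq_add_neg, hr2, hu]
      simp only [one_pow]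
      ring
    rw [h6]
    ring

/-- **divisibility of powers of `1 - y`** for an element `y` with `y^(l^n) = 1` -/
theorem aug_dvd {l : ℕ} (hl : l.Prime) (n : ℕ) {y : R} (hy : y ^ l ^ n = 1) (k : ℕ) :
    (l : R) ^ k ∣ (1 - y) ^ (k * (l ^ n - l ^ (n - 1)) + l ^ (n - 1)) := by
  rcases Nat.eq_zero_or_pos n with hn | hn
  · subst hn
    have : y = 1 := by simpa using hy
    subst this
    simp
  obtain ⟨n, rfl⟩ : ∃ n', n = n' + 1 := ⟨n - 1, by omega⟩
  rw [Nat.add_sub_cancel]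
  set φ := l ^ (n + 1) - l ^ n with hφ
  have hφ1 : φ = l ^ n * (l - 1) := by
    rw [hφ, pow_succ, Nat.mul_sub, mul_one]
  set z := y ^ l ^ n with hz
  have hzl : z ^ l = 1 := by rw [hz, ← pow_mul, ← pow_succ]; exact hy
  obtain ⟨h, hh⟩ := frob_pow hl y n
  rw [← hz] at hh
  -- the ideal of `1 - z`
  have hb : (l : R) * (1 - z) ∣ (1 - y) ^ φ * (1 - z) := by
    have h1 : (l : R) ∣ (1 - y) ^ φ - (1 - z) ^ (l - 1) := by
      rw [hφ1, pow_mul, hh]
      have h2 : (l : R) * h ∣ ((1 - z + l * h) ^ (l - 1) - (1 - z) ^ (l - 1)) := by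
        have h3 := sub_dvd_pow_sub_pow (1 - z + l * h) (1 - z) (l - 1)
        rwa [add_sub_cancel_left] at h3
      exact (dvd_mul_right _ _).trans h2
    obtain ⟨w, hw⟩ := h1
    have h2 : (1 - y) ^ φ = (1 - z) ^ (l - 1) + l * w := by rw [← hw]; ring
    rw [h2, add_mul, ← pow_succ, Nat.sub_add_cancel hl.one_le]
    refine dvd_add (dvd_one_sub_pow hl hzl) ⟨w, by ring⟩
  have hb2 : ∀ k : ℕ, (l : R) ^ k * (1 - z) ∣ (1 - y) ^ (k * φ) * (1 - z) := by
    intro k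
    induction k with
    | zero => simp
    | succ k ih =>
      obtain ⟨u, hu⟩ := ih
      obtain ⟨v, hv⟩ := hb
      refine ⟨u * v, ?_⟩
      have e : (1 - y) ^ ((k + 1) * φ) * (1 - z) = ((1 - y) ^ (k * φ) * (1 - z)) * (1 - y) ^ φ := by
        rw [add_mul, pow_add, one_mul]; ring
      rw [e, hu]
      have e2 : (l : R) ^ k * (1 - z) * u * (1 - y) ^ φ = (l : R) ^ k * u * ((1 - y) ^ φ * (1 - z)) := by
        ring
      rw [e2, hv, pow_succ]
      ring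
  induction k with
  | zero => simp
  | succ k ih =>
    rw [pow_add (1 - y), hh, mul_add]
    refine dvd_add ((dvd_mul_right _ _).trans (hb2 (k + 1))) ?_
    have h3 : k * φ + l ^ n ≤ (k + 1) * φ := by
      rw [add_mul, one_mul, hφ1]
      have : 1 ≤ l - 1 := by have := hl.two_le; omega
      have : l ^ n * 1 ≤ l ^ n * (l - 1) := Nat.mul_le_mul_left _ this
      omega
    have h4 : (l : R) ^ k ∣ (1 - y) ^ ((k + 1) * φ) := ih.trans (pow_dvd_pow _ h3)
    obtain ⟨u, hu⟩ := h4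
    exact ⟨u * h, by rw [hu, pow_succ]; ring⟩

end Pool.Agent.H11.SK
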