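import Pool.Graph.R_pool_sql_team_seeded_63374d34.N598.ST.Def

set_option autoImplicit false

/-!
# Cyclic subextensions and the rank one abelian Stark conjecture: definitions (helper11)

The objects of the conjecture (`Place`, `Data`, `IsArtin`, `IsZeta`, `Stark`, `StarkMul`,
`StarkPart`) are those of the library module `N598.ST.Def`.
-/

namespace Pool.Agent.H11.SK

open NumberField IsDedekindDomain Pool.Agent.N598.ST

/-- The primes in `S` outside of `S'` at which the value of the Artin map `a'` of `F / K` (the
Frobenius automorphism) has order a power of `l`. -/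
def powerPrimes {K F : Type} [Field K] [NumberField K] [Field F] [NumberField F] [Algebra K F]
    (S S' : Finset (Place K)) (a' : Ideal (𝓞 K) → Gal(F/K)) (l : ℕ) :
    Set (HeightOneSpectrum (𝓞 K)) :=
  {q | Sum.inr q ∈ S ∧ Sum.inr q ∉ S' ∧ ∃ j : ℕ, a' q.asIdeal ^ l ^ j = 1}

/-- The number `k (l ^ n - l ^ (n - 1)) + l ^ (n - 1) + 1` (it is `2` for `n = 0`, as `0 - 1 = 0` in
the natural numbers). -/
def needed (l k n : ℕ) : ℕ := k * (l ^ n - l ^ (n - 1)) + l ^ (n - 1) + 1

/-- There are enough primes in `S` outside of `S'`, for the prime `l`, the subextension `F / K` of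
`H / K` and the exponent `v`: if the Sylow `l`-subgroups of `Gal(H/K)` are not cyclic, and `l ^ m`,
`l ^ n` are the exact powers of `l` which divide `|Gal(H/K)|` and `|Gal(F/K)|`, and
`m = max 1 n + v + k` with `k > 0`, then there are at least `needed l k n` primes in `S` outside of
`S'` whose Frobenius automorphism in `Gal(F/K)` has `l`-power order. -/
def Enough {K H : Type} [Field K] [NumberField K] [Field H] [NumberField H] [Algebra K H]
    (l v : ℕ) (S : Finset (Place K)) (F : IntermediateField K H) (S' : Finset (Place K))
    (a' : Ideal (𝓞 K) → Gal(F/K)) : Prop :=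
  (¬ ∀ P : Sylow l Gal(H/K), IsCyclic P) → ∀ k : ℕ, 0 < k →
    (Nat.card Gal(H/K)).factorization l =
      max 1 ((Nat.card Gal(F/K)).factorization l) + v + k →
      needed l k ((Nat.card Gal(F/K)).factorization l) ≤ (powerPrimes S S' a' l).ncard

open Classical in
/-- The `l`-part of the conjecture is known for the subextension `F / K` of `H / K`, the place `p`
and suitable sets: `S'` is a subset of `S` such that `F / K`, `S'`, `p` satisfy the hypotheses of
the conjecture, `a'` is the Artin map and the `Z' g` are the partial zeta functions of `F / K` and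
`S'`, the `l`-part of the conjecture holds for `F / K`, `p` and the sets `S'` and `S' ∪ {q}` for all
primes `q` in `S` outside of `S'`, and there are enough such primes. -/
structure KnownPart {K H : Type} [Field K] [NumberField K] [Field H] [NumberField H] [Algebra K H]
    (l v : ℕ) (S : Finset (Place K)) (p : Place K) (F : IntermediateField K H)
    (S' : Finset (Place K)) (a' : Ideal (𝓞 K) → Gal(F/K)) (Z' : Gal(F/K) → ℂ → ℂ) : Prop where
  sub : S' ⊆ S
  data : Data K F S' p
  artin : IsArtin S' a'
  zeta : ∀ g, IsZeta S' a' g (Z' g)
  stark : StarkPart K F l S' p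
  stark_insert : ∀ q : HeightOneSpectrum (𝓞 K), Sum.inr q ∈ S → Sum.inr q ∉ S' →
    StarkPart K F l (insert (Sum.inr q) S') p
  enough : Enough l v S F S' a'

end Pool.Agent.H11.SK
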