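import Pool.Graph.R_pool_sql_team_seeded_63374d34.N598.ST.Grp
import Pool.Graph.R_pool_sql_team_seeded_64922ed1.X27.NR.Count

set_option autoImplicit false

/-! Squares of subgroups of a finite abelian group and the induction over quotients. -/

namespace Pool.Agent.H11.SK

open Pool.Agent.X27.NR (IsSquare between relation mem_between card_between)

variable {G : Type} [CommGroup G] [Finite G]

/-- a subgroup with noncyclic quotient lies below a square -/
theorem exists_square (C : Subgroup G) (h : ¬ IsCyclic (G ⧸ C)) :
    ∃ (E : Subgroup G) (q : ℕ), IsSquare C E q := by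
  have h1 : ¬ IsZGroup (G ⧸ C) := by
    intro h0
    exact h inferInstance
  rw [isZGroup_iff] at h1
  push Not at h1
  obtain ⟨q, hq, P, hP⟩ := h1
  obtain ⟨V, hV, hV2⟩ := Pool.Agent.N598.ST.exists_V (G := G ⧸ C) (fun a b => mul_comm a b) q hq
    (by push Not; exact ⟨P, hP⟩)
  refine ⟨V.comap (QuotientGroup.mk' C), q, hq, ?_, ?_, ?_⟩
  · intro x hx
    have : QuotientGroup.mk' C x = 1 := (QuotientGroup.eq_one_iff x).2 hx
    rw [Subgroup.mem_comap, this]
    exact V.one_mem
  · have h2 : (V.comap (QuotientGroup.mk' C)).index = V.index :=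
      Subgroup.index_comap_of_surjective V (QuotientGroup.mk'_surjective C)
    have h3 := V.card_mul_index
    have h4 := (V.comap (QuotientGroup.mk' C)).card_mul_index
    have h6 : Nat.card (G ⧸ C) * Nat.card C = Nat.card G :=
      (Subgroup.card_eq_card_quotient_mul_card_subgroup C).symm
    rw [h2] at h4
    have h7 : 0 < V.index := Nat.pos_of_ne_zero Subgroup.index_ne_zero_of_finite
    apply Nat.eq_of_mul_eq_mul_right h7
    rw [h4, ← h6, ← h3, hV]
    ring
  · intro x hx
    have h2 := hV2 _ (Subgroup.mem_comap.1 hx)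
    rw [← map_pow] at h2
    exact (QuotientGroup.eq_one_iff _).1 h2

/-- the prime of a square has a noncyclic Sylow subgroup -/
theorem square_sylow {C E : Subgroup G} {q : ℕ} (h : IsSquare C E q) (hc : ∀ P : Sylow q G, IsCyclic P) :
    False := by
  obtain ⟨hq, hCE, hcard, hpow⟩ := h
  have : Fact q.Prime := ⟨hq⟩
  set π := QuotientGroup.mk' C with hπ
  have hsurj : Function.Surjective π := QuotientGroup.mk'_surjective C
  set V : Subgroup (G ⧸ C) := E.map π with hV
  have hVp : ∀ t ∈ V, t ^ q = 1 := by
    rintro t ⟨x, hx, rfl⟩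
    rw [← map_pow]
    exact (QuotientGroup.eq_one_iff _).2 (hpow x hx)
  have hVP : IsPGroup q V := fun a => ⟨1, Subtype.ext (by rw [pow_one]; exact hVp a a.2)⟩
  obtain ⟨P', hP'⟩ := hVP.exists_le_sylow
  obtain ⟨P, hP⟩ := Sylow.mapSurjective_surjective hsurj q P'
  have hcP := hc P
  have hcV : IsCyclic V := by
    have h1 : IsCyclic (P' : Subgroup (G ⧸ C)) := by
      rw [← hP, Sylow.coe_mapSurjective]
      exact isCyclic_of_surjective _ (π.subgroupMap_surjective P)
    exact isCyclic_of_injective (Subgroup.inclusion hP') (Subgroup.inclusion_injective hP')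
  have h2 : Nat.card V ∣ q := by
    rw [← IsCyclic.exponent_eq_card]
    exact Monoid.exponent_dvd_of_forall_pow_eq_one fun t => Subtype.ext (hVp t t.2)
  have h3 : Nat.card V = q ^ 2 := by
    have h4 : V.comap π = E := by
      rw [hV, Subgroup.comap_map_eq, hπ, QuotientGroup.ker_mk']
      exact sup_eq_left.2 hCE
    have h5 : (V.comap π).index = V.index := Subgroup.index_comap_of_surjective V hsurj
    have h6 := V.card_mul_index
    have h7 := E.card_mul_index
    have h8 : Nat.card (G ⧸ C) * Nat.card C = Nat.card G :=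
      (Subgroup.card_eq_card_quotient_mul_card_subgroup C).symm
    rw [h4] at h5
    rw [h5] at h7
    have h9 : 0 < V.index := Nat.pos_of_ne_zero Subgroup.index_ne_zero_of_finite
    have h10 : 0 < Nat.card C := Nat.card_pos
    apply Nat.eq_of_mul_eq_mul_right (Nat.mul_pos h9 h10)
    rw [← mul_assoc, h6, h8, ← h7, hcard]
    ring
  rw [h3] at h2
  have h4 := Nat.le_of_dvd hq.pos h2
  have := hq.two_le
  nlinarith

variable [Fintype (Subgroup G)]

/-- the induction over the quotients of `G` -/
theorem push_ind {B : Type} [AddCommGroup B] (A : AddSubgroup B) (θ : Subgroup G → B)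
    (n : Subgroup G → ℕ) (hcyc : ∀ C : Subgroup G, IsCyclic (G ⧸ C) → n C • θ C ∈ A)
    (hrel : ∀ (C E : Subgroup G) (q : ℕ), IsSquare C E q →
      ∑ D' ∈ between C E q, θ D' = q • θ C + θ E)
    (hn : ∀ (C E : Subgroup G) (q : ℕ), IsSquare C E q →
      (∀ D' ∈ between C E q, n C = q * n D') ∧ q * n E ∣ n C) (C : Subgroup G) :
    n C • θ C ∈ A := by
  induction hi : C.index using Nat.strong_induction_on generalizing C with
  | _ i ih =>
    by_cases hcC : IsCyclic (G ⧸ C)
    · exact hcyc C hcC
    obtain ⟨E, q, hE⟩ := exists_square C hcC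
    obtain ⟨hn1, hn2⟩ := hn C E q hE
    have hlt : ∀ D' : Subgroup G, C < D' → D'.index < C.index := by
      intro D' hD'
      have h1 := D'.card_mul_index
      have h2 := C.card_mul_index
      have h3 : Nat.card C < Nat.card D' := Set.ncard_lt_ncard hD' (Set.toFinite _)
      have h4 : 0 < C.index := Nat.pos_of_ne_zero Subgroup.index_ne_zero_of_finite
      by_contra h5
      push Not at h5
      have h6 : Nat.card C * C.index < Nat.card D' * D'.index :=
        Nat.mul_lt_mul_of_lt_of_le h3 h5 (Nat.pos_of_ne_zero Subgroup.index_ne_zero_of_finite)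
      omega
    have hq0 : 0 < q := hE.1.pos
    have hc0 : 0 < Nat.card C := Nat.card_pos
    have hltC : ∀ D' ∈ between C E q, C < D' := by
      intro D' hD'
      obtain ⟨h1, -, h3⟩ := mem_between.1 hD'
      refine lt_of_le_of_ne h1 ?_
      rintro rfl
      have := hE.1.two_le
      nlinarith
    have hltE : C < E := by
      refine lt_of_le_of_ne hE.2.1 ?_
      intro h0
      have h1 := hE.2.2.1
      rw [← h0] at h1
      have h2 := hE.1.two_le
      have h3 : 1 < q ^ 2 := Nat.one_lt_pow (by norm_num) (by omega)
      nlinarith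
    have hmD : ∀ D' ∈ between C E q, n D' • θ D' ∈ A := fun D' hD' =>
      ih _ (hi ▸ hlt D' (hltC D' hD')) D' rfl
    have hmE : n E • θ E ∈ A := ih _ (hi ▸ hlt E hltE) E rfl
    obtain ⟨t, ht⟩ := hn2
    have hnD : ∀ D' ∈ between C E q, n D' = n E * t := by
      intro D' hD'
      have h1 := hn1 D' hD'
      rw [ht, mul_assoc] at h1
      exact (Nat.eq_of_mul_eq_mul_left hq0 h1).symm
    have h1 : n C • θ C = ∑ D' ∈ between C E q, n D' • θ D' - t • (n E • θ E) := by
      rw [Finset.sum_congr rfl fun D' hD' => by rw [hnD D' hD'], ← Finset.smul_sum, hrel C E q hE, ht,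
        smul_add, smul_smul, smul_smul]
      have e1 : n E * t * q = q * n E * t := by ring
      have e2 : t * n E = n E * t := by ring
      rw [e1, e2, add_sub_cancel_right]
    rw [h1]
    exact A.sub_mem (A.sum_mem hmD) (A.nsmul_mem hmE t)

open Classical in
/-- the sums over the cosets of `C` -/
noncomputable def push {G : Type} [Group G] [Fintype G] (C : Subgroup G) (θ : G → ℂ) : G → ℂ :=
  fun g => ∑ h : G, if h ∈ C then θ (g * h) else 0

omit [Fintype (Subgroup G)] in
theorem square_index {C E : Subgroup G} {q : ℕ} (h : IsSquare C E q) :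
    C.index = q * (q * E.index) ∧
      ∀ D' : Subgroup G, Nat.card D' = q * Nat.card C → C.index = q * D'.index := by
  have hc0 : 0 < Nat.card C := Nat.card_pos
  constructor
  · have h1 := C.card_mul_index
    have h2 := E.card_mul_index
    rw [h.2.2.1] at h2
    apply Nat.eq_of_mul_eq_mul_left hc0
    rw [h1, ← h2]
    ring
  · intro D' hD'
    have h1 := C.card_mul_index
    have h2 := D'.card_mul_index
    rw [hD'] at h2
    apply Nat.eq_of_mul_eq_mul_left hc0
    rw [h1, ← h2]
    ring

/-- **from cyclic quotients to the whole group** -/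
theorem push_full {G : Type} [Group G] [Fintype G] (hcomm : ∀ a b : G, a * b = b * a) (θ : G → ℂ)
    (A : AddSubgroup (G → ℂ)) (l : ℕ) (hl : l.Prime) (v : ℕ)
    (h1 : ∀ C : Subgroup G, (∃ g₀, C ⊔ Subgroup.zpowers g₀ = ⊤) → push C θ ∈ A)
    (h2 : (¬ ∀ P : Sylow l G, IsCyclic P) → ∀ C : Subgroup G, (∃ g₀, C ⊔ Subgroup.zpowers g₀ = ⊤) →
      ∃ ψ ∈ A, (l ^ max 1 (C.index.factorization l) * l ^ v) • push C θ =
        (l ^ (Nat.card G).factorization l) • ψ) :
    (ordCompl[l] (Nat.card G) * l ^ v) • θ ∈ A := by
  classical
  let inst : CommGroup G := { (inferInstance : Group G) with mul_comm := hcomm }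
  have : Fintype (Subgroup G) := Fintype.ofFinite _
  have hcard : Nat.card G ≠ 0 := Nat.card_pos.ne'
  have hpush : ∀ C : Subgroup G, push C θ =
      ∑ e ∈ Finset.univ.filter (fun e : G => e ∈ C), (fun g => θ (g * e)) := by
    intro C
    funext g
    rw [Finset.sum_apply, Finset.sum_filter]
    rfl
  have hbot : push (⊥ : Subgroup G) θ = θ := by
    funext g
    unfold push
    simp [Subgroup.mem_bot]
  have hcyc : ∀ C : Subgroup G, IsCyclic (G ⧸ C) → ∃ g₀, C ⊔ Subgroup.zpowers g₀ = ⊤ := by
    intro C hC
    obtain ⟨⟨x, hx⟩⟩ := hC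
    obtain ⟨g₀, rfl⟩ := QuotientGroup.mk'_surjective C x
    refine ⟨g₀, ?_⟩
    rw [eq_top_iff]
    intro y _
    obtain ⟨k, hk⟩ := hx (QuotientGroup.mk' C y)
    have hk : (QuotientGroup.mk' C g₀) ^ k = QuotientGroup.mk' C y := hk
    rw [← map_zpow, QuotientGroup.mk'_apply, QuotientGroup.mk'_apply, QuotientGroup.eq] at hk
    have e : y = (g₀ ^ k)⁻¹ * y * g₀ ^ k := by rw [mul_comm, mul_inv_cancel_left]
    rw [e]
    exact Subgroup.mul_mem_sup hk (Subgroup.zpow_mem_zpowers g₀ k)
  have hrel : ∀ (C E : Subgroup G) (q : ℕ), IsSquare C E q →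
      ∑ D' ∈ between C E q, push D' θ = q • push C θ + push E θ := by
    intro C E q h
    simp only [hpush]
    exact relation h (fun e g => θ (g * e))
  by_cases hS : ∀ P : Sylow l G, IsCyclic P
  · have key := push_ind A (fun C => push C θ) (fun C => ordCompl[l] C.index)
      (fun C hC => A.nsmul_mem (h1 C (hcyc C hC)) _) hrel (fun C E q h => ?_) ⊥
    · rw [Subgroup.index_bot, hbot] at key
      rw [mul_comm, mul_smul]
      exact A.nsmul_mem key _
    · have hq : q ≠ l := fun h0 => square_sylow h (h0 ▸ hS)
      have hq2 : ordCompl[l] q = q :=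
        (Nat.ordCompl_eq_self_iff_zero_or_not_dvd q hl).2 (Or.inr fun h3 =>
          hq ((Nat.prime_dvd_prime_iff_eq hl h.1).1 h3).symm)
      obtain ⟨h3, h4⟩ := square_index h
      constructor
      · intro D' hD'
        rw [h4 D' (mem_between.1 hD').2.2, Nat.ordCompl_mul, hq2]
      · rw [h3, Nat.ordCompl_mul, Nat.ordCompl_mul, hq2]
        exact ⟨q, by ring⟩
  · set e := l ^ (Nat.card G).factorization l with he
    have he0 : e ≠ 0 := pow_ne_zero _ hl.ne_zero
    let A' : AddSubgroup (G → ℂ) := A.map (nsmulAddMonoidHom (α := G → ℂ) e)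
    have hA' : ∀ φ, φ ∈ A' ↔ ∃ ψ ∈ A, e • ψ = φ := fun φ => Iff.rfl
    have hlG : l ∣ Nat.card G := by
      by_contra h0
      apply hS
      intro P
      have : Fact l.Prime := ⟨hl⟩
      have h1 := P.card_eq_multiplicity
      rw [Nat.factorization_eq_zero_of_not_dvd h0, pow_zero] at h1
      have : Subsingleton P := (Nat.card_eq_one_iff_unique.1 h1).1
      exact isCyclic_of_subsingleton
    have hwt : ∀ N : ℕ, N ≠ 0 → (if l ∣ N then N else l * N) =
        ordCompl[l] N * l ^ max 1 (N.factorization l) := by
      intro N hN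
      have h3 := Nat.ordProj_mul_ordCompl_eq_self N l
      by_cases h4 : l ∣ N
      · rw [if_pos h4]
        have h5 : 1 ≤ N.factorization l := hl.factorization_pos_of_dvd hN h4
        rw [max_eq_right h5, mul_comm]
        exact h3.symm
      · rw [if_neg h4]
        have h5 : N.factorization l = 0 := Nat.factorization_eq_zero_of_not_dvd h4
        rw [h5, pow_zero, Nat.div_one, max_eq_left (Nat.zero_le 1), pow_one, mul_comm]
    have key := push_ind A' (fun C => (l ^ v) • push C θ)
      (fun C => if l ∣ C.index then C.index else l * C.index)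
      (fun C hC => by
        obtain ⟨ψ, h3, h4⟩ := h2 hS C (hcyc C hC)
        have h5 : (if l ∣ C.index then C.index else l * C.index) • ((l ^ v) • push C θ) =
            (ordCompl[l] C.index) • ((l ^ max 1 (C.index.factorization l) * l ^ v) • push C θ) := by
          rw [hwt C.index Subgroup.index_ne_zero_of_finite, smul_smul, smul_smul, mul_assoc]
        rw [h5]
        exact A'.nsmul_mem ((hA' _).2 ⟨ψ, h3, h4.symm⟩) _)
      (fun C E q h => by
        rw [← Finset.smul_sum, hrel C E q h, smul_add, smul_comm])
      (fun C E q h => by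
        obtain ⟨h3, h4⟩ := square_index h
        have hql : q ≠ l → (l ∣ q * E.index ↔ l ∣ E.index) := by
          intro hq
          constructor
          · intro h5
            rcases hl.dvd_mul.1 h5 with h6 | h6
            · exact absurd ((Nat.prime_dvd_prime_iff_eq hl h.1).1 h6).symm hq
            · exact h6
          · exact fun h5 => h5.mul_left q
        constructor
        · intro D' hD'
          have h5 := h4 D' (mem_between.1 hD').2.2
          have h6 : D'.index = q * E.index := by
            rw [h3] at h5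
            exact (Nat.eq_of_mul_eq_mul_left h.1.pos h5).symm
          rw [h3, h6]
          by_cases hq : q = l
          · subst hq
            rw [if_pos (dvd_mul_right _ _), if_pos (dvd_mul_right _ _)]
          · have h7 : l ∣ q * (q * E.index) ↔ l ∣ q * E.index := by
              rw [hql hq]
              constructor
              · intro h8
                rcases hl.dvd_mul.1 h8 with h9 | h9
                · exact absurd ((Nat.prime_dvd_prime_iff_eq hl h.1).1 h9).symm hq
                · exact (hql hq).1 h9
              · exact fun h8 => (h8.mul_left q).mul_left q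
            by_cases h8 : l ∣ q * E.index
            · rw [if_pos (h7.2 h8), if_pos h8]
            · rw [if_neg (fun h9 => h8 (h7.1 h9)), if_neg h8]
              ring
        · rw [h3]
          by_cases hq : q = l
          · subst hq
            rw [if_pos (dvd_mul_right _ _)]
            by_cases h8 : q ∣ E.index
            · rw [if_pos h8]
              exact ⟨q, by ring⟩
            · rw [if_neg h8]
          · by_cases h8 : l ∣ E.index
            · rw [if_pos h8, if_pos ((h8.mul_left q).mul_left q)]
              exact ⟨q, by ring⟩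
            · rw [if_neg h8]
              have h9 : ¬ l ∣ q * (q * E.index) := by
                intro h10
                rcases hl.dvd_mul.1 h10 with h11 | h11
                · exact hq ((Nat.prime_dvd_prime_iff_eq hl h.1).1 h11).symm
                · exact h8 ((hql hq).1 h11)
              rw [if_neg h9]
              exact ⟨q, by ring⟩) ⊥
    rw [Subgroup.index_bot, if_pos hlG, hbot] at key
    obtain ⟨ψ, h3, h4⟩ := (hA' _).1 key
    have h5 : e • ψ = e • ((ordCompl[l] (Nat.card G) * l ^ v) • θ) := by
      rw [h4, smul_smul, smul_smul, ← mul_assoc]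
      congr 2
      exact (Nat.ordProj_mul_ordCompl_eq_self (Nat.card G) l).symm
    have h6 : ψ = (ordCompl[l] (Nat.card G) * l ^ v) • θ := by
      funext g
      have h7 := congrFun h5 g
      simp only [Pi.smul_apply, nsmul_eq_mul] at h7 ⊢
      exact mul_left_cancel₀ (by exact_mod_cast he0) h7
    rw [← h6]
    exact h3

end Pool.Agent.H11.SK
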