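import Pool.Graph.R_pool_sql_team_seeded_63374d34.N598.ST.Main

set_option autoImplicit false

/-! The Galois group acts on the good functions; good functions from subextensions. -/

namespace Pool.Agent.H11.SK

open NumberField IsDedekindDomain Pool.Agent.N598.ST

variable {K H : Type} [Field K] [NumberField K] [Field H] [NumberField H] [Algebra K H]

/-- `H` as a field over which `H` is an algebra by the automorphism `h` -/
def Tw (_h : Gal(H/K)) : Type := H

section tw
variable (h : Gal(H/K))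
noncomputable instance : Field (Tw h) := inferInstanceAs (Field H)
noncomputable instance : NumberField (Tw h) := inferInstanceAs (NumberField H)
noncomputable instance : Algebra K (Tw h) := inferInstanceAs (Algebra K H)
noncomputable instance : Algebra (Tw h) H := ((h : H →ₐ[K] H) : H →+* H).toAlgebra
instance : IsScalarTower K (Tw h) H := IsScalarTower.of_algebraMap_eq fun x => (h.commutes x).symm
end tw

/-- conjugate places -/
theorem exists_conj [IsGalois K H] (h : Gal(H/K)) (Q : Place H) (q : Place K) (hQ : Over K H Q q) :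
    ∃ Q' : Place H, Over K H Q' q ∧ ∀ x : H, nabs Q (h x) = nabs Q' x := by
  obtain ⟨Q', h1, h2⟩ := exists_mid (F := Tw h) Q q hQ
  refine ⟨Q', h2, fun x => ?_⟩
  have h3 := nabs_mid Q Q' h1 (x : Tw h)
  have h4 := ldeg_tower (K := K) Q Q' h1
  have h5 : ldeg K Q = ldeg (H := Tw h) K Q' := ldeg_gal (K := K) (H := H) Q Q' q hQ h2
  have h6 : 0 < ldeg (H := Tw h) K Q' := ldeg_pos (K := K) (H := Tw h) Q'
  have h7 : ldeg (Tw h) Q = 1 := by
    rw [h5] at h4
    exact Nat.eq_of_mul_eq_mul_left h6 (by rw [← h4, mul_one])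
  rw [h7, pow_one] at h3
  exact h3

theorem InU.galois [IsGalois K H] {S : Finset (Place K)} {p : Place K} {x : H} (hx : InU S p x)
    (h : Gal(H/K)) : InU S p (h x) := by
  refine ⟨(map_ne_zero _).2 hx.ne, ?_, ?_, ?_⟩
  · intro q hq Q hQ
    obtain ⟨Q', h1, h2⟩ := exists_conj h Q q hQ
    rw [h2, hx.out q hq Q' h1]
  · intro h3 q hq hqp Q hQ
    obtain ⟨Q', h1, h2⟩ := exists_conj h Q q hQ
    rw [h2, hx.many h3 q hq hqp Q' h1]
  · intro h3 q hq hqp Q1 Q2 hQ1 hQ2
    obtain ⟨Q1', h1, h2⟩ := exists_conj h Q1 q hQ1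
    obtain ⟨Q2', h1', h2'⟩ := exists_conj h Q2 q hQ2
    rw [h2, h2', hx.single h3 q hq hqp Q1' Q2' h1 h1']

theorem AbOm.galois {w : ℕ} {x : H} (hx : AbOm K w x) (h : Gal(H/K)) : AbOm K w (h x) := by
  obtain ⟨E, hE, hH, z, hz, hzx⟩ := hx
  have : Algebra.IsAlgebraic K (AlgebraicClosure H) := Algebra.IsAlgebraic.trans K H _
  have : IsAlgClosure K (AlgebraicClosure H) := ⟨inferInstance, this⟩
  have hN : Normal K (AlgebraicClosure H) := IsAlgClosure.normal K _
  set σ : AlgebraicClosure H ≃ₐ[K] AlgebraicClosure H := h.liftNormal (AlgebraicClosure H) with hσ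
  have h1 : ∀ y : H, σ (algebraMap H (AlgebraicClosure H) y) =
      algebraMap H (AlgebraicClosure H) (h y) := fun y =>
    AlgEquiv.liftNormal_commutes h (AlgebraicClosure H) y
  refine ⟨E, hE, hH, σ z, ?_, ?_⟩
  · have hg : IsGalois K E := inferInstance
    have h2 := AlgEquiv.restrictNormal_commutes σ E ⟨z, hz⟩
    have h3 : σ z = ((σ.restrictNormal E ⟨z, hz⟩ : E) : AlgebraicClosure H) := h2.symm
    rw [h3]
    exact (σ.restrictNormal E ⟨z, hz⟩).2
  · rw [← map_pow, hzx, h1]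

/-- the good functions are stable under the Galois group -/
theorem Good.galois [IsGalois K H] {S : Finset (Place K)} {p : Place K} {P : Place H}
    {φ : Gal(H/K) → ℂ} (h1 : Good S p P φ) (h : Gal(H/K)) : Good S p P (fun g => φ (g * h)) := by
  obtain ⟨x, hx, hx1, hx2⟩ := h1
  refine ⟨h x, InU.galois hx h, fun g => ?_, AbOm.galois hx2 h⟩
  have := hx1 (g * h)
  exact this

theorem InU.mono {S' S : Finset (Place K)} {p : Place K} (hS : S' ⊆ S) (h3 : 3 ≤ S'.card) {x : H}
    (hx : InU S' p x) : InU S p x := by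
  refine ⟨hx.ne, fun q hq => hx.out q fun h => hq (hS h), ?_, ?_⟩
  · intro _ q hq hqp
    by_cases hq' : q ∈ S'
    · exact hx.many h3 q hq' hqp
    · exact hx.out q hq'
  · intro h2
    have := Finset.card_le_card hS
    omega

theorem Good.mono {S' S : Finset (Place K)} {p : Place K} (hS : S' ⊆ S) (h3 : 3 ≤ S'.card)
    {P : Place H} {φ : Gal(H/K) → ℂ} (h : Good S' p P φ) : Good S p P φ := by
  obtain ⟨x, h1, h2, h4⟩ := h
  exact ⟨x, InU.mono hS h3 h1, h2, h4⟩

/-- quotients of conjugate elements are in `U` for larger sets -/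
theorem InU.diff [IsGalois K H] {S' S : Finset (Place K)} {p : Place K} (hS : S' ⊆ S)
    (h2 : 2 ≤ S'.card) {x : H} (hx : InU S' p x) (h : Gal(H/K)) : InU S p (x * (h x)⁻¹) := by
  by_cases h3 : 3 ≤ S'.card
  · exact (InU.mono hS h3 hx).mul (InU.mono hS h3 (InU.galois hx h)).inv
  have hc : S'.card = 2 := by omega
  have hne : x * (h x)⁻¹ ≠ 0 := mul_ne_zero hx.ne (inv_ne_zero ((map_ne_zero _).2 hx.ne))
  have hout : ∀ q, q ∉ S' → ∀ Q : Place H, Over K H Q q → nabs Q (x * (h x)⁻¹) = 1 := by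
    intro q hq Q hQ
    rw [nabs_mul, nabs_inv, hx.out q hq Q hQ, (InU.galois hx h).out q hq Q hQ]
    norm_num
  have hin : ∀ q ∈ S', q ≠ p → ∀ Q : Place H, Over K H Q q → nabs Q (x * (h x)⁻¹) = 1 := by
    intro q hq hqp Q hQ
    obtain ⟨Q', h1, h5⟩ := exists_conj h Q q hQ
    rw [nabs_mul, nabs_inv, h5, hx.single hc q hq hqp Q Q' hQ h1]
    exact mul_inv_cancel₀ (nabs_pos Q' hx.ne).ne'
  have hall : ∀ q, q ≠ p → ∀ Q : Place H, Over K H Q q → nabs Q (x * (h x)⁻¹) = 1 := by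
    intro q hqp Q hQ
    by_cases hq : q ∈ S'
    · exact hin q hq hqp Q hQ
    · exact hout q hq Q hQ
  refine ⟨hne, fun q hq => hout q fun h1 => hq (hS h1), fun _ q _ hqp => hall q hqp, ?_⟩
  intro _ q _ hqp Q Q' hQ hQ'
  rw [hall q hqp Q hQ, hall q hqp Q' hQ']

theorem Good.diff [IsAbelianGalois K H] {S' S : Finset (Place K)} {p : Place K} (hS : S' ⊆ S)
    (h2 : 2 ≤ S'.card) {P : Place H} {φ : Gal(H/K) → ℂ} (hφ : Good S' p P φ) (h : Gal(H/K)) :
    Good S p P (fun g => φ g - φ (g * h)) := by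
  obtain ⟨x, h1, h3, h4⟩ := hφ
  refine ⟨x * (h x)⁻¹, InU.diff hS h2 h1 h, fun g => ?_, h4.mul (AbOm.galois h4 h).inv⟩
  have hx := h1.ne
  have hgx : (h x) ≠ 0 := (map_ne_zero _).2 hx
  rw [map_mul, map_inv₀, nabs_mul, nabs_inv, Real.log_mul (nabs_pos P ((map_ne_zero _).2 hx)).ne'
    (inv_ne_zero (nabs_pos P ((map_ne_zero _).2 hgx)).ne'), Real.log_inv, Complex.ofReal_add,
    Complex.ofReal_neg, h3 g]
  have h5 := h3 (g * h)
  have e : (g * h) x = g (h x) := rfl
  rw [e] at h5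
  rw [h5]
  ring

/-- a multiple of the conjecture for a subextension gives a good function -/
theorem good_of_sub [IsAbelianGalois K H] {F : Type} [Field F] [NumberField F] [Algebra K F]
    [Algebra F H] [IsScalarTower K F H] [Normal K F] {S' : Finset (Place K)} {p : Place K}
    (hp : TotallySplit K H p) {c : ℤ} (hF : StarkMul K F c S' p) (P : Place H)
    (hP : Over K H P p) {a : Ideal (𝓞 K) → Gal(F/K)} (ha : IsArtin S' a) {Z : Gal(F/K) → ℂ → ℂ}
    (hZ : ∀ g, IsZeta S' a g (Z g)) :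
    Good S' p P (fun g => (c : ℂ) * deriv (Z (AlgEquiv.restrictNormalHom F g)) 0) := by
  obtain ⟨P', hP1, hP2⟩ := exists_mid (F := F) P p hP
  obtain ⟨ε, h1, h2, h4⟩ := hF P' hP2 a ha Z hZ
  obtain ⟨k, hk⟩ := W_dvd (F := F) (H := H)
  have : IsGalois K F := ⟨⟩
  refine ⟨algebraMap F H ε ^ k, h1.lift.pow k, fun g => ?_, ?_⟩
  · have h4 := h2 (AlgEquiv.restrictNormalHom F g)
    have h5 : g (algebraMap F H ε) = algebraMap F H (AlgEquiv.restrictNormalHom F g ε) :=
      (AlgEquiv.restrictNormal_commutes g F ε).symm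
    have h6 : nabs P (g (algebraMap F H ε ^ k)) = nabs P' (AlgEquiv.restrictNormalHom F g ε) ^ k := by
      rw [map_pow, h5, ← nabs_split hp P P' hP1 hP2]
      exact nabs_pow _ _ _
    rw [h6, Real.log_pow, hk]
    push_cast
    rw [h4]
    ring
  · rw [hk]; exact h4.lift

theorem starkMul_mul [IsAbelianGalois K H] {S : Finset (Place K)} {p : Place K} {c : ℤ}
    (h : StarkMul K H c S p) (d : ℤ) : StarkMul K H (d * c) S p := by
  have h1 : c ∈ idealOf K H S p := h
  have h2 := AddSubgroup.zsmul_mem (idealOf K H S p) h1 d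
  rwa [smul_eq_mul] at h2

/-- to prove `c` times the conjecture one can work at one prime at a time -/
theorem mul_of_parts [IsAbelianGalois K H] (c : ℤ) (S : Finset (Place K)) (p : Place K)
    (h : ∀ l : ℕ, l.Prime → ∃ d : ℤ, ¬ (l : ℤ) ∣ d ∧ StarkMul K H (d * c) S p) :
    StarkMul K H c S p := by
  let J : AddSubgroup ℤ := (idealOf K H S p).comap (AddMonoidHom.mulRight c)
  have hJ : ∀ d : ℤ, d ∈ J ↔ StarkMul K H (d * c) S p := fun d => Iff.rfl
  obtain ⟨n, hn⟩ := Int.subgroup_cyclic J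
  have hmem : ∀ d : ℤ, d ∈ J ↔ n ∣ d := by
    intro d
    rw [← Int.mem_zmultiples_iff, AddSubgroup.zmultiples_eq_closure, ← hn]
  by_contra h1
  have h1' : ¬ n ∣ 1 := by
    rw [← hmem, hJ, one_mul]
    exact h1
  have hne : n.natAbs ≠ 1 := fun h2 => h1' (Int.isUnit_iff_natAbs_eq.2 h2).dvd
  obtain ⟨l, hl, hln⟩ := Nat.exists_prime_and_dvd hne
  obtain ⟨d, hd, hd2⟩ := h l hl
  exact hd ((Int.natCast_dvd.2 hln).trans ((hmem d).1 ((hJ d).2 hd2)))

end Pool.Agent.H11.SK
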