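import Pool.Graph.R_pool_sql_team_seeded_63374d34.N598.ST.Main

set_option autoImplicit false
set_option linter.unusedSectionVars false

/-! Partial zeta functions: Euler factors, uniqueness; uniqueness of the Artin map. -/

namespace Pool.Agent.H11.SK

open NumberField IsDedekindDomain Pool.Agent.N598.ST

section frob

variable {K F : Type} [Field K] [NumberField K] [Field F] [NumberField F] [Algebra K F]

theorem exists_above (q : HeightOneSpectrum (𝓞 K)) :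
    ∃ P : HeightOneSpectrum (𝓞 F), P.asIdeal.LiesOver q.asIdeal := by
  obtain ⟨P, hP⟩ := exists_top (F := K) (H := F) (.inr q)
  match P, hP with
  | .inr P, hP => exact ⟨P, hP⟩

/-- the Frobenius automorphism at an unramified prime is unique -/
theorem frob_unique [IsGalois K F] {q : HeightOneSpectrum (𝓞 K)} (hq : Unram K F q)
    {σ τ : Gal(F/K)}
    (hσ : ∀ P : HeightOneSpectrum (𝓞 F), P.asIdeal.LiesOver q.asIdeal → ∀ x y : 𝓞 F,
      (y : F) = σ (x : F) - (x : F) ^ Ideal.absNorm q.asIdeal → y ∈ P.asIdeal)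
    (hτ : ∀ P : HeightOneSpectrum (𝓞 F), P.asIdeal.LiesOver q.asIdeal → ∀ x y : 𝓞 F,
      (y : F) = τ (x : F) - (x : F) ^ Ideal.absNorm q.asIdeal → y ∈ P.asIdeal) : σ = τ := by
  obtain ⟨P, hP⟩ := exists_above (K := K) (F := F) q
  have hfrob : ∀ σ : Gal(F/K), (∀ P : HeightOneSpectrum (𝓞 F), P.asIdeal.LiesOver q.asIdeal →
      ∀ x y : 𝓞 F, (y : F) = σ (x : F) - (x : F) ^ Ideal.absNorm q.asIdeal → y ∈ P.asIdeal) →
      IsArithFrobAt (𝓞 K) σ P.asIdeal := by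
    intro σ h x
    have h1 : Nat.card (𝓞 K ⧸ P.asIdeal.under (𝓞 K)) = Ideal.absNorm q.asIdeal := by
      rw [← hP.over, Ideal.absNorm_apply]
      rfl
    rw [h1]
    refine h P hP x _ ?_
    rfl
  have h2 := (hfrob σ hσ).mul_inv_mem_inertia (hfrob τ hτ)
  have hqp : q.asIdeal.IsPrime := q.isPrime
  have hPp : P.asIdeal.IsPrime := P.isPrime
  have hqm : q.asIdeal.IsMaximal := q.isMaximal
  have hfin : Finite (𝓞 K ⧸ q.asIdeal) := Ideal.finiteQuotientOfFreeOfNeBot q.asIdeal q.ne_bot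
  have h3 : Nat.card (P.asIdeal.inertia Gal(F/K)) = 1 := by
    rw [Ideal.card_inertia_eq_ramificationIdxIn q.asIdeal P.asIdeal,
      Ideal.ramificationIdxIn_eq_ramificationIdx q.asIdeal P.asIdeal Gal(F/K)]
    exact hq P hP
  rw [Subgroup.eq_bot_of_card_eq _ h3, Subgroup.mem_bot] at h2
  exact mul_inv_eq_one.1 h2

theorem artin_unique [IsGalois K F] {S : Finset (Place K)}
    (hr : ∀ q : HeightOneSpectrum (𝓞 K), Sum.inr q ∉ S → Unram K F q)
    {a a' : Ideal (𝓞 K) → Gal(F/K)} (ha : IsArtin S a) (ha' : IsArtin S a') (𝔞 : Ideal (𝓞 K)) :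
    PrimeTo S 𝔞 → a 𝔞 = a' 𝔞 := by
  induction 𝔞 using UniqueFactorizationMonoid.induction_on_prime with
  | h₁ => intro h; exact absurd rfl h.1
  | h₂ x hx =>
    intro _
    have : x = ⊤ := by
      rw [← Ideal.one_eq_top]
      exact isUnit_iff_eq_one.1 hx
    rw [this, ha.one, ha'.one]
  | h₃ x p hx hp ih =>
    intro h
    have hpne : p ≠ ⊥ := hp.ne_zero
    have hpp : p.IsPrime := Ideal.isPrime_of_prime hp
    set q : HeightOneSpectrum (𝓞 K) := ⟨p, hpp, hpne⟩ with hq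
    have hqS : Sum.inr q ∉ S := fun h1 => h.2 q h1 Ideal.mul_le_left
    have h1 : PrimeTo S x := ⟨hx, fun v hv hle => h.2 v hv (Ideal.mul_le_right.trans hle)⟩
    have h2 : PrimeTo S p := ⟨hpne, fun v hv hle => h.2 v hv (Ideal.mul_le_left.trans hle)⟩
    rw [ha.mul p x h2 h1, ha'.mul p x h2 h1, ih h1]
    congr 1
    exact frob_unique (hr q hqS) (ha.frob q hqS) (ha'.frob q hqS)

theorem IsArtin.mono {S' S : Finset (Place K)} (h : S' ⊆ S) {a : Ideal (𝓞 K) → Gal(F/K)}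
    (ha : IsArtin S' a) : IsArtin S a :=
  ⟨ha.one, fun 𝔞 𝔟 h1 h2 => ha.mul 𝔞 𝔟 ⟨h1.1, fun q hq => h1.2 q (h hq)⟩
    ⟨h2.1, fun q hq => h2.2 q (h hq)⟩, fun q hq => ha.frob q fun h1 => hq (h h1)⟩

end frob

section zeta

variable {K F : Type} [Field K] [NumberField K] [Field F] [NumberField F] [Algebra K F]

theorem zeta_deriv_unique {S : Finset (Place K)} {a a' : Ideal (𝓞 K) → Gal(F/K)} {g : Gal(F/K)}
    {Z Z' : ℂ → ℂ} (hZ : IsZeta S a g Z) (hZ' : IsZeta S a' g Z')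
    (h : ∀ 𝔞, PrimeTo S 𝔞 → a 𝔞 = a' 𝔞) : deriv Z 0 = deriv Z' 0 := by
  classical
  have hpre : IsPreconnected ({1}ᶜ : Set ℂ) := by
    refine (isConnected_compl_singleton_of_one_lt_rank ?_ 1).isPreconnected
    rw [Complex.rank_real_complex]
    norm_num
  have hopen1 : IsOpen ({1}ᶜ : Set ℂ) := isOpen_compl_singleton
  have h1 : AnalyticOnNhd ℂ Z {1}ᶜ := hZ.hol.analyticOnNhd hopen1
  have h2 : AnalyticOnNhd ℂ Z' {1}ᶜ := hZ'.hol.analyticOnNhd hopen1
  have h3 : Z =ᶠ[nhds (2 : ℂ)] Z' := by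
    have hopen : IsOpen {z : ℂ | 1 < z.re} := isOpen_lt continuous_const Complex.continuous_re
    filter_upwards [hopen.mem_nhds (show (2 : ℂ) ∈ {z : ℂ | 1 < z.re} by simp)] with z hz
    refine (hZ.sum z hz).unique ((hZ'.sum z hz).congr_fun fun 𝔞 => ?_)
    by_cases hp : PrimeTo S 𝔞
    · rw [h 𝔞 hp]
    · simp [hp]
  have h4 := h1.eqOn_of_preconnected_of_eventuallyEq h2 hpre (z₀ := (2 : ℂ)) (by simp) h3
  have h5 : Z =ᶠ[nhds (0 : ℂ)] Z' := by
    filter_upwards [hopen1.mem_nhds (show (0 : ℂ) ∈ ({1}ᶜ : Set ℂ) by simp)] with z hz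
    exact h4 hz
  exact h5.deriv_eq

/-- the Euler factor of a prime -/
theorem zeta_euler [DecidableEq (Place K)] {S : Finset (Place K)} {a : Ideal (𝓞 K) → Gal(F/K)} (ha : IsArtin S a)
    {Z : Gal(F/K) → ℂ → ℂ} (hZ : ∀ g, IsZeta S a g (Z g)) {q : HeightOneSpectrum (𝓞 K)}
    (hq : Sum.inr q ∉ S) (g : Gal(F/K)) :
    IsZeta (insert (Sum.inr q) S) a g (fun s => Z g s - ((Ideal.absNorm q.asIdeal : ℕ) : ℂ) ^ (-s) *
      Z ((a q.asIdeal)⁻¹ * g) s) := by
  classical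
  have hN : ((Ideal.absNorm q.asIdeal : ℕ) : ℂ) ≠ 0 := by
    have h1 : Ideal.absNorm q.asIdeal ≠ 0 := Ideal.absNorm_eq_zero_iff.not.2 q.ne_bot
    exact_mod_cast h1
  have hdiff : Differentiable ℂ (fun s : ℂ => ((Ideal.absNorm q.asIdeal : ℕ) : ℂ) ^ (-s)) := fun s =>
    (differentiable_id.neg s).const_cpow (Or.inl hN)
  refine ⟨(hZ g).hol.sub (hdiff.differentiableOn.mul (hZ _).hol), fun s hs => ?_⟩
  have hqS : PrimeTo S q.asIdeal := by
    refine ⟨q.ne_bot, fun v hv hle => hq ?_⟩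
    have h1 : q.asIdeal = v.asIdeal := q.isMaximal.eq_of_le v.isPrime.ne_top hle
    have h2 : q = v := HeightOneSpectrum.ext h1
    rw [h2]; exact hv
  have hprime : ∀ J : Ideal (𝓞 K), PrimeTo S (q.asIdeal * J) ↔ PrimeTo S J := by
    intro J
    constructor
    · intro h
      refine ⟨fun h0 => h.1 (by rw [h0, Ideal.mul_bot]), fun v hv hle =>
        h.2 v hv (Ideal.mul_le_right.trans hle)⟩
    · intro h
      refine ⟨mul_ne_zero (show q.asIdeal ≠ 0 from q.ne_bot) h.1, fun v hv hle => ?_⟩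
      rcases v.isPrime.mul_le.1 hle with h1 | h1
      · exact hqS.2 v hv h1
      · exact h.2 v hv h1
  set F₀ : Ideal (𝓞 K) → ℂ := fun I => ((Ideal.absNorm I : ℕ) : ℂ) ^ (-s) with hF
  have hinj : Function.Injective (fun J : Ideal (𝓞 K) => q.asIdeal * J) := by
    intro I J h
    exact mul_left_cancel₀ (show q.asIdeal ≠ 0 from q.ne_bot) h
  have h1 := ((hZ ((a q.asIdeal)⁻¹ * g)).sum s hs).mul_left (((Ideal.absNorm q.asIdeal : ℕ) : ℂ) ^ (-s))
  have h2 : HasSum (fun I : Ideal (𝓞 K) => if I ≤ q.asIdeal ∧ PrimeTo S I ∧ a I = g then F₀ I else 0)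
      (((Ideal.absNorm q.asIdeal : ℕ) : ℂ) ^ (-s) * Z ((a q.asIdeal)⁻¹ * g) s) := by
    refine (hinj.hasSum_iff (fun I hI => ?_)).1 (h1.congr_fun fun J => ?_)
    · rw [if_neg]
      rintro ⟨h3, -, -⟩
      obtain ⟨J, hJ⟩ := Ideal.dvd_iff_le.2 h3
      exact hI ⟨J, hJ.symm⟩
    · simp only [Function.comp]
      by_cases hJ : PrimeTo S J
      · have h4 : a (q.asIdeal * J) = g ↔ a J = (a q.asIdeal)⁻¹ * g := by
          rw [ha.mul _ _ hqS hJ, eq_inv_mul_iff_mul_eq]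
        by_cases hg : a J = (a q.asIdeal)⁻¹ * g
        · rw [if_pos ⟨Ideal.mul_le_left, (hprime J).2 hJ, h4.2 hg⟩, if_pos ⟨hJ, hg⟩]
          simp only [hF]
          rw [map_mul, Nat.cast_mul, Complex.natCast_mul_natCast_cpow]
        · rw [if_neg (fun h => hg (h4.1 h.2.2)), if_neg (fun h => hg h.2), mul_zero]
      · rw [if_neg (fun h => hJ ((hprime J).1 h.2.1)), if_neg (fun h => hJ h.1), mul_zero]
  refine (((hZ g).sum s hs).sub h2).congr_fun fun I => ?_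
  have hins : PrimeTo (insert (Sum.inr q) S) I ↔ PrimeTo S I ∧ ¬ I ≤ q.asIdeal := by
    constructor
    · intro h
      exact ⟨⟨h.1, fun v hv => h.2 v (Finset.mem_insert_of_mem hv)⟩,
        h.2 q (Finset.mem_insert_self _ _)⟩
    · rintro ⟨h3, h4⟩
      refine ⟨h3.1, fun v hv => ?_⟩
      rcases Finset.mem_insert.1 hv with h5 | h5
      · rw [Sum.inr.inj h5]; exact h4
      · exact h3.2 v h5
  by_cases hI : PrimeTo S I ∧ a I = g
  · by_cases hle : I ≤ q.asIdeal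
    · rw [if_pos hI, if_pos (show I ≤ q.asIdeal ∧ PrimeTo S I ∧ a I = g from ⟨hle, hI⟩), sub_self,
        if_neg]
      rintro ⟨h5, -⟩
      exact (hins.1 h5).2 hle
    · rw [if_pos hI, if_neg (show ¬ (I ≤ q.asIdeal ∧ PrimeTo S I ∧ a I = g) from fun h => hle h.1),
        sub_zero, if_pos ⟨hins.2 ⟨hI.1, hle⟩, hI.2⟩]
  · rw [if_neg hI, if_neg (show ¬ (I ≤ q.asIdeal ∧ PrimeTo S I ∧ a I = g) from fun h => hI h.2),
      sub_zero, if_neg]
    rintro ⟨h5, h6⟩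
    exact hI ⟨(hins.1 h5).1, h6⟩

end zeta

end Pool.Agent.H11.SK
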