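import Pool.Agent.H11.SK.Def
import Pool.Agent.H11.SK.Act
import Pool.Agent.H11.SK.Grp
import Pool.Agent.H11.SK.Plc
import Pool.Agent.H11.SK.Zet

set_option autoImplicit false

namespace Pool.Agent.H11.SK

open NumberField IsDedekindDomain Pool.Agent.N598.ST

section main

variable {K H : Type} [Field K] [NumberField K] [Field H] [NumberField H] [Algebra K H]
  [IsAbelianGalois K H]

/-- the finite places in `S` outside of `S'` -/
noncomputable def between (S S' : Finset (Place K)) : Finset (HeightOneSpectrum (𝓞 K)) := by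
  classical
  exact (S \ S').toRight

theorem mem_between {S S' : Finset (Place K)} {q : HeightOneSpectrum (𝓞 K)} :
    q ∈ between S S' ↔ Sum.inr q ∈ S ∧ Sum.inr q ∉ S' := by
  classical
  unfold between
  rw [Finset.mem_toRight, Finset.mem_sdiff]

open Classical in
/-- a common multiple -/
theorem exists_mult {l : ℕ} (hl : l.Prime) {v : ℕ} {S : Finset (Place K)} {p : Place K}
    {F : IntermediateField K H} {S' : Finset (Place K)} {a' : Ideal (𝓞 K) → Gal(F/K)}
    {Z' : Gal(F/K) → ℂ → ℂ} (hK : KnownPart l v S p F S' a' Z') :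
    ∃ d : ℤ, ¬ (l : ℤ) ∣ d ∧ StarkMul K F d S' p ∧ ∀ q : HeightOneSpectrum (𝓞 K), Sum.inr q ∈ S →
      Sum.inr q ∉ S' → StarkMul K F d (insert (Sum.inr q) S') p := by
  obtain ⟨d₀, h0, h1⟩ := hK.stark
  have h2 : ∀ q : HeightOneSpectrum (𝓞 K), ∃ d : ℤ, ¬ (l : ℤ) ∣ d ∧ (Sum.inr q ∈ S →
      Sum.inr q ∉ S' → StarkMul K F d (insert (Sum.inr q) S') p) := by
    intro q
    by_cases h : Sum.inr q ∈ S ∧ Sum.inr q ∉ S'
    · obtain ⟨d, h3, h4⟩ := hK.stark_insert q h.1 h.2
      exact ⟨d, h3, fun _ _ => h4⟩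
    · refine ⟨1, fun h3 => ?_, fun h3 h4 => absurd ⟨h3, h4⟩ h⟩
      have : l ∣ 1 := by exact_mod_cast h3
      exact hl.one_lt.ne' (Nat.dvd_one.1 this)
  choose d hd1 hd2 using h2
  have hpl : Prime (l : ℤ) := Nat.prime_iff_prime_int.1 hl
  refine ⟨d₀ * ∏ q ∈ between S S', d q, ?_, ?_, ?_⟩
  · intro h
    rcases hpl.dvd_or_dvd h with h | h
    · exact h0 h
    · obtain ⟨q, -, hq⟩ := (Prime.dvd_finsetProd_iff hpl _).1 h
      exact hd1 q hq
  · rw [mul_comm]
    exact starkMul_mul h1 _
  · intro q hq hq'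
    obtain ⟨k, hk⟩ := Finset.dvd_prod_of_mem d (mem_between.2 ⟨hq, hq'⟩)
    have e : d₀ * ∏ q ∈ between S S', d q = (d₀ * k) * d q := by rw [hk]; ring
    rw [e]
    exact starkMul_mul (hd2 q hq hq') _

open Classical in
theorem known_good {S : Finset (Place K)} {p : Place K} (hp : TotallySplit K H p)
    (F : IntermediateField K H) (hcyc : IsCyclic Gal(F/K)) {S' : Finset (Place K)}
    {a' : Ideal (𝓞 K) → Gal(F/K)} {Z' : Gal(F/K) → ℂ → ℂ} {l v : ℕ} (hl : l.Prime)
    (hK : KnownPart l v S p F S' a' Z') {d : ℤ} (hd1 : StarkMul K F d S' p)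
    (hd2 : ∀ q : HeightOneSpectrum (𝓞 K), Sum.inr q ∈ S →
      Sum.inr q ∉ S' → StarkMul K F d (insert (Sum.inr q) S') p)
    (P : Place H) (hP : Over K H P p) {a : Ideal (𝓞 K) → Gal(H/K)} (ha : IsArtin S a)
    {Z : Gal(H/K) → ℂ → ℂ} (hZ : ∀ g, IsZeta S a g (Z g)) :
    (fun g : Gal(H/K) => (d : ℂ) * ∑ h : Gal(H/K), if AlgEquiv.restrictNormalHom F h =
      AlgEquiv.restrictNormalHom F g then deriv (Z h) 0 else 0) ∈ goodSub S p P ∧
    ((¬ ∀ P : Sylow l Gal(H/K), IsCyclic P) → ∃ ψ ∈ goodSub S p P,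
      (fun g : Gal(H/K) => (d : ℂ) * ∑ h : Gal(H/K), if AlgEquiv.restrictNormalHom F h =
        AlgEquiv.restrictNormalHom F g then deriv (Z h) 0 else 0) =
          (l ^ ((Nat.card Gal(H/K)).factorization l -
            (max 1 ((Nat.card Gal(F/K)).factorization l) + v))) • ψ) := by
  classical
  have hGal : IsGalois K F := ⟨⟩
  let instQ : CommGroup Gal(F/K) := IsCyclic.commGroup
  have hcG : ∀ a b : Gal(H/K), a * b = b * a :=
    fun a b => (IsMulCommutative.is_comm (M := Gal(H/K))).comm a b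
  set r : Gal(H/K) →* Gal(F/K) := AlgEquiv.restrictNormalHom F with hr
  have hrs : Function.Surjective r := AlgEquiv.restrictNormalHom_surjective H
  set V : Finset (HeightOneSpectrum (𝓞 K)) := between S S' with hV
  have hVm : ∀ q, q ∈ V ↔ Sum.inr q ∈ S ∧ Sum.inr q ∉ S' := fun q => mem_between
  -- the sets between
  let T : Finset (HeightOneSpectrum (𝓞 K)) → Finset (Place K) := fun U =>
    S' ∪ U.map ⟨Sum.inr, Sum.inr_injective⟩
  have hT0 : T ∅ = S' := by simp [T]
  have hTV : T V = S := by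
    ext x
    simp only [T, Finset.mem_union, Finset.mem_map, Function.Embedding.coeFn_mk]
    constructor
    · rintro (h | ⟨q, hq, rfl⟩)
      · exact hK.sub h
      · exact ((hVm q).1 hq).1
    · intro h
      by_cases h' : x ∈ S'
      · exact Or.inl h'
      · right
        match x, h, h' with
        | .inl v, _, h' => exact absurd (hK.data.arch v) h'
        | .inr q, h, h' => exact ⟨q, (hVm q).2 ⟨h, h'⟩, rfl⟩
  have hTi : ∀ U q, T (insert q U) = insert (Sum.inr q) (T U) := by
    intro U q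
    simp only [T]
    rw [Finset.map_insert, Finset.union_insert]
    rfl
  have hTn : ∀ U q, q ∈ V → q ∉ U → Sum.inr q ∉ T U := by
    intro U q hq hqU h
    simp only [T, Finset.mem_union, Finset.mem_map, Function.Embedding.coeFn_mk] at h
    rcases h with h | ⟨q', hq', h⟩
    · exact ((hVm q).1 hq).2 h
    · rw [Sum.inr.inj h] at hq'
      exact hqU hq'
  have hS'T : ∀ U, S' ⊆ T U := fun U => Finset.subset_union_left
  -- the group of functions
  let pull : (Gal(F/K) → ℂ) →+ (Gal(H/K) → ℂ) :=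
    { toFun := fun φ g => (d : ℂ) * φ (r g)
      map_zero' := by
        funext g
        simp
      map_add' := fun φ ψ => by
        funext g
        simp [mul_add] }
  let A : AddSubgroup (Gal(F/K) → ℂ) := (goodSub S p P).comap pull
  have hAm : ∀ φ, φ ∈ A ↔ Good S p P (fun g => (d : ℂ) * φ (r g)) := fun φ => Iff.rfl
  have hA : ∀ φ ∈ A, ∀ x : Gal(F/K), (fun g => φ (x * g)) ∈ A := by
    intro φ hφ x
    obtain ⟨b, rfl⟩ := hrs x
    rw [hAm] at hφ ⊢
    have h1 := Good.galois hφ b
    have e : (fun g => (d : ℂ) * φ (r b * r g)) = (fun g => (d : ℂ) * φ (r (g * b))) := by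
      funext g
      rw [hcG g b, map_mul]
    rw [e]
    exact h1
  have hgood : Good S' p P (fun g => (d : ℂ) * deriv (Z' (r g)) 0) :=
    good_of_sub hp hd1 P hP hK.artin hK.zeta
  have h2S' : 2 ≤ S'.card := hK.data.two_le
  have hdiff : ∀ (U : Finset (HeightOneSpectrum (𝓞 K))) (Y : Gal(F/K) → ℂ → ℂ),
      (∀ g, IsZeta (T U) a' g (Y g)) → ∀ g, DifferentiableAt ℂ (Y g) 0 := by
    intro U Y hY g
    exact ((hY g).hol 0 (by simp)).differentiableAt (isOpen_compl_singleton.mem_nhds (by simp))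
  obtain ⟨ZV, hZV, hin, hdvd⟩ := euler_good (fun q : HeightOneSpectrum (𝓞 K) => a' q.asIdeal)
    (fun q => Ideal.absNorm q.asIdeal) (fun q => Ideal.absNorm_eq_zero_iff.not.2 q.ne_bot)
    (fun U Y => ∀ g, IsZeta (T U) a' g (Y g)) V
    (by
      intro U Y q _ hq hqU hY g
      rw [hTi]
      exact zeta_euler (IsArtin.mono (hS'T U) hK.artin) hY (hTn U q hq hqU) g)
    hdiff Z' (by rw [hT0]; exact hK.zeta) A hA
    (by
      intro hV0
      have hSS : S' = S := by
        rw [← hTV, hV0, hT0]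
      rw [hAm, ← hSS]
      exact hgood)
    (by
      intro q hq
      obtain ⟨b, hb⟩ := hrs (a' q.asIdeal)⁻¹
      rw [hAm]
      have h1 := Good.diff hK.sub h2S' hgood b
      have e : (fun g => (d : ℂ) * (deriv (Z' (r g)) 0 - deriv (Z' ((a' q.asIdeal)⁻¹ * r g)) 0)) =
          (fun g => (d : ℂ) * deriv (Z' (r g)) 0 - (d : ℂ) * deriv (Z' (r (g * b))) 0) := by
        funext g
        rw [hcG g b, map_mul, hb, mul_sub]
      rw [e]
      exact h1)
    (by
      intro q hq
      obtain ⟨hq1, hq2⟩ := (hVm q).1 hq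
      have h1 : ∀ g, IsZeta (insert (Sum.inr q) S') a' g (fun s => Z' g s -
          ((Ideal.absNorm q.asIdeal : ℕ) : ℂ) ^ (-s) * Z' ((a' q.asIdeal)⁻¹ * g) s) :=
        fun g => zeta_euler hK.artin hK.zeta hq2 g
      have h2 := good_of_sub hp (hd2 q hq1 hq2) P hP
        (IsArtin.mono (Finset.subset_insert _ _) hK.artin) h1
      rw [hAm]
      refine Good.mono (Finset.insert_subset hq1 hK.sub) ?_ h2
      rw [Finset.card_insert_of_notMem hq2]
      omega)
  -- comparison with the partial zeta functions of `H`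
  have hres : ∀ u : Gal(F/K), (∑ h : Gal(H/K), if r h = u then deriv (Z h) 0 else 0) =
      deriv (ZV u) 0 := by
    intro u
    rw [← deriv_restrict hZ u]
    refine zeta_deriv_unique (S := S) (IsZeta.restrict hZ u) (by
      have := hZV u
      rw [hTV] at this
      exact this) fun 𝔞 h𝔞 => ?_
    exact artin_unique (fun q hq => hK.data.ram q fun h => hq (hK.sub h)) (ha.restrict (F := F))
      (IsArtin.mono hK.sub hK.artin) 𝔞 h𝔞
  have hfun : (fun g : Gal(H/K) => (d : ℂ) * ∑ h : Gal(H/K),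
      if r h = r g then deriv (Z h) 0 else 0) = pull (fun u => deriv (ZV u) 0) := by
    funext g
    have := hres (r g)
    simp only [this]
    rfl
  rw [hfun]
  refine ⟨hin, fun hS => ?_⟩
  set k := (Nat.card Gal(H/K)).factorization l -
    (max 1 ((Nat.card Gal(F/K)).factorization l) + v) with hk
  rcases Nat.eq_zero_or_pos k with hk0 | hk0
  · rw [hk0, pow_zero]
    exact ⟨pull fun u => deriv (ZV u) 0, hin, (one_smul _ _).symm⟩
  have hmany := hK.enough hS k hk0 (by omega)
  obtain ⟨ψ, h1, h2⟩ := hdvd l k hl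
    (V.filter fun q => ∃ k : ℕ, a' q.asIdeal ^ l ^ k = 1) (Finset.filter_subset _ _)
    (fun q hq => (Finset.mem_filter.1 hq).2) (by
      have e : powerPrimes S S' a' l =
          ((V.filter fun q => ∃ k : ℕ, a' q.asIdeal ^ l ^ k = 1 : Finset _) : Set _) := by
        ext q
        rw [Finset.mem_coe, Finset.mem_filter, hVm]
        unfold powerPrimes
        rw [Set.mem_ofPred_eq, and_assoc]
      rw [e, Set.ncard_coe_finset] at hmany
      exact hmany)
  refine ⟨pull ψ, h1, ?_⟩
  rw [h2, map_nsmul]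

/-- **the main theorem, for a prime `l`** -/
theorem part_of_known {S : Finset (Place K)} {p : Place K} (hD : Data K H S p) {l : ℕ}
    (hl : l.Prime) (v : ℕ)
    (hyp : ∀ F : IntermediateField K H, IsCyclic Gal(F/K) →
      ∃ S' a' Z', KnownPart l v S p F S' a' Z') :
    ∃ d : ℤ, ¬ (l : ℤ) ∣ d ∧ StarkMul K H (d * l ^ v) S p := by
  classical
  have hcard : Nat.card Gal(H/K) ≠ 0 := Nat.card_pos.ne'
  have hcG : ∀ a b : Gal(H/K), a * b = b * a :=
    fun a b => (IsMulCommutative.is_comm (M := Gal(H/K))).comm a b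
  have hcyc : ∀ C : Subgroup Gal(H/K), (∃ g₀, C ⊔ Subgroup.zpowers g₀ = ⊤) →
      IsCyclic Gal(IntermediateField.fixedField C/K) := by
    rintro C ⟨g₀, hg₀⟩
    have hrs : Function.Surjective (AlgEquiv.restrictNormalHom (F := K) (K₁ := H)
      (IntermediateField.fixedField C)) := AlgEquiv.restrictNormalHom_surjective H
    have h1 : (C ⊔ Subgroup.zpowers g₀).map (AlgEquiv.restrictNormalHom
        (IntermediateField.fixedField C)) = ⊤ := by
      rw [hg₀, ← MonoidHom.range_eq_map]
      exact MonoidHom.range_eq_top.2 hrs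
    have h2 : C.map (AlgEquiv.restrictNormalHom (IntermediateField.fixedField C)) = ⊥ := by
      rw [Subgroup.map_eq_bot_iff, IntermediateField.restrictNormalHom_ker,
        IntermediateField.fixingSubgroup_fixedField]
    rw [Subgroup.map_sup, h2, bot_sup_eq, MonoidHom.map_zpowers] at h1
    refine ⟨⟨AlgEquiv.restrictNormalHom (IntermediateField.fixedField C) g₀, fun x => ?_⟩⟩
    have h3 : x ∈ (⊤ : Subgroup Gal(IntermediateField.fixedField C/K)) := Subgroup.mem_top x
    rw [← h1] at h3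
    exact h3
  have hidx : ∀ C : Subgroup Gal(H/K),
      Nat.card Gal(IntermediateField.fixedField C/K) = C.index := by
    intro C
    have hrs : Function.Surjective (AlgEquiv.restrictNormalHom (F := K) (K₁ := H)
      (IntermediateField.fixedField C)) := AlgEquiv.restrictNormalHom_surjective H
    have h1 := Subgroup.index_ker (AlgEquiv.restrictNormalHom (F := K) (K₁ := H)
      (IntermediateField.fixedField C))
    rw [IntermediateField.restrictNormalHom_ker, IntermediateField.fixingSubgroup_fixedField,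
      MonoidHom.range_eq_top.2 hrs, Subgroup.card_top] at h1
    exact h1.symm
  -- the multiples
  have hmult : ∀ C : Subgroup Gal(H/K), ∃ d : ℤ, ¬ (l : ℤ) ∣ d ∧
      ((∃ g₀, C ⊔ Subgroup.zpowers g₀ = ⊤) → ∃ S' a' Z',
        KnownPart l v S p (IntermediateField.fixedField C) S' a' Z' ∧
        StarkMul K (IntermediateField.fixedField C) d S' p ∧ ∀ q : HeightOneSpectrum (𝓞 K),
          Sum.inr q ∈ S → Sum.inr q ∉ S' →
            StarkMul K (IntermediateField.fixedField C) d (insert (Sum.inr q) S') p) := by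
    intro C
    by_cases hC : ∃ g₀, C ⊔ Subgroup.zpowers g₀ = ⊤
    · obtain ⟨S', a', Z', hK⟩ := hyp _ (hcyc C hC)
      obtain ⟨d, h1, h2, h3⟩ := exists_mult hl hK
      exact ⟨d, h1, fun _ => ⟨S', a', Z', hK, h2, h3⟩⟩
    · refine ⟨1, fun h3 => ?_, fun h3 => absurd h3 hC⟩
      have : l ∣ 1 := by exact_mod_cast h3
      exact hl.one_lt.ne' (Nat.dvd_one.1 this)
  choose d hd1 hd2 using hmult
  set D : ℤ := ∏ C : Subgroup Gal(H/K), d C with hDdef
  have hDl : ¬ (l : ℤ) ∣ D := by
    intro h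
    obtain ⟨C, -, hC⟩ := (Prime.dvd_finsetProd_iff (Nat.prime_iff_prime_int.1 hl) _).1 h
    exact hd1 C hC
  have hdD : ∀ C, ∃ k, D = k * d C := by
    intro C
    obtain ⟨k, hk⟩ := Finset.dvd_prod_of_mem d (Finset.mem_univ C)
    exact ⟨k, by rw [hDdef, hk, mul_comm]⟩
  refine ⟨(ordCompl[l] (Nat.card Gal(H/K)) : ℕ) * D, ?_, ?_⟩
  · intro h
    rcases (Nat.prime_iff_prime_int.1 hl).dvd_or_dvd h with h | h
    · exact Nat.not_dvd_ordCompl hl hcard (by exact_mod_cast h)
    · exact hDl h
  rw [starkMul_iff]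
  intro P hP a ha Z hZ
  have hpush : ∀ C : Subgroup Gal(H/K), push C (fun g => (D : ℂ) * deriv (Z g) 0) =
      (fun g : Gal(H/K) => (D : ℂ) * ∑ h : Gal(H/K),
        if AlgEquiv.restrictNormalHom (IntermediateField.fixedField C) h =
          AlgEquiv.restrictNormalHom (IntermediateField.fixedField C) g
        then deriv (Z h) 0 else 0) := by
    intro C
    funext g
    unfold push
    rw [← Equiv.sum_comp (Equiv.mulLeft g) (fun h => if AlgEquiv.restrictNormalHom
      (IntermediateField.fixedField C) h = AlgEquiv.restrictNormalHom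
        (IntermediateField.fixedField C) g then deriv (Z h) 0 else 0), Finset.mul_sum]
    refine Finset.sum_congr rfl fun h _ => ?_
    have : h ∈ C ↔ AlgEquiv.restrictNormalHom (IntermediateField.fixedField C) (g * h) =
            AlgEquiv.restrictNormalHom (IntermediateField.fixedField C) g := by
      conv_lhs => rw [← IntermediateField.fixingSubgroup_fixedField C]
      rw [← IntermediateField.restrictNormalHom_ker, MonoidHom.mem_ker, map_mul, mul_eq_left]
    simp only [Equiv.coe_mulLeft, this, mul_ite, mul_zero]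
  have key := push_full hcG (fun g => (D : ℂ) * deriv (Z g) 0) (goodSub S p P) l hl v
    (by
      intro C hC
      rw [hpush]
      obtain ⟨S', a', Z', hK, h1, h2⟩ := hd2 C hC
      obtain ⟨k, hk⟩ := hdD C
      refine (known_good (d := D) hD.split _ (hcyc C hC) hl hK (hk ▸ starkMul_mul h1 k)
        (fun q hq hq' => hk ▸ starkMul_mul (h2 q hq hq') k) P hP ha hZ).1)
    (by
      intro hS C hC
      rw [hpush]
      obtain ⟨S', a', Z', hK, h1, h2⟩ := hd2 C hC
      obtain ⟨k, hk⟩ := hdD C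
      obtain ⟨ψ, h1, h2⟩ := (known_good (d := D) hD.split _ (hcyc C hC) hl hK
        (hk ▸ starkMul_mul h1 k) (fun q hq hq' => hk ▸ starkMul_mul (h2 q hq hq') k)
        P hP ha hZ).2 hS
      rw [hidx] at h2
      set m := (Nat.card Gal(H/K)).factorization l
      set n := max 1 (C.index.factorization l)
      refine ⟨(l ^ ((n + v) - m)) • ψ, AddSubgroup.nsmul_mem _ h1 _, ?_⟩
      rw [h2, smul_smul, smul_smul, ← pow_add, ← pow_add, ← pow_add]
      congr 2
      omega)
  have e : ∀ N : ℕ, (((N : ℤ) * D) * (l : ℤ) ^ v) • (fun g => deriv (Z g) 0) =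
      (N * l ^ v) • (fun g => (D : ℂ) * deriv (Z g) 0) := by
    intro N
    funext g
    simp only [Pi.smul_apply, zsmul_eq_mul, nsmul_eq_mul]
    push_cast
    ring
  rw [e]
  exact key

/-- **the main theorem** -/
theorem mul_of_known {S : Finset (Place K)} {p : Place K} (hD : Data K H S p) (c : ℕ)
    (hyp : ∀ l : ℕ, l.Prime → ∀ F : IntermediateField K H, IsCyclic Gal(F/K) →
      ∃ S' a' Z', KnownPart l (c.factorization l) S p F S' a' Z') :
    StarkMul K H c S p := by
  apply mul_of_parts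
  intro l hl
  obtain ⟨d, h1, h2⟩ := part_of_known hD hl (c.factorization l) (hyp l hl)
  refine ⟨d, h1, ?_⟩
  have e : d * (c : ℤ) = ((ordCompl[l] c : ℕ) : ℤ) * (d * (l : ℤ) ^ c.factorization l) := by
    have h3 := Nat.ordProj_mul_ordCompl_eq_self c l
    have h4 : (c : ℤ) = (l : ℤ) ^ c.factorization l * ((ordCompl[l] c : ℕ) : ℤ) := by
      conv_lhs => rw [← h3]
      rw [Nat.cast_mul, Nat.cast_pow]
    conv_lhs => rw [h4]
    ring
  rw [e]
  exact starkMul_mul h2 _

end main

end Pool.Agent.H11.SK
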